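import Pool.Agent.Y385.TS.FinAlpha

/-!
# MP_f277c5_ag, Q2: there is no gap above `1/(n+1)` in any dimension `n ≥ 2`

Let `n ≥ 2`, `m ≥ 7`, `N = ℤ^(n+1) / ℤ (1, ..., 1)`, `A_k = n m e_k + e_(k-1)` and
`B_k = -(m+3) e_k - e_(k-1)` for `k ∈ ℤ/(n+1)`. The moment polytope with the facet normals `A_k`, `B_k` is
a simplex (with facet normals `A_k`) whose `n+1` vertices are truncated by the facets `B_k`. It is
invariant under the cyclic shift, which has no non-zero fixed vector, so its barycentre is `0` and the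
toric variety is a K-semistable klt Fano variety. Its alpha invariant is `1 / (1 + M)`, where `M < n` is the
largest pairing of a vertex with a ray, and `M` tends to `n` as `m` tends to infinity.

The notions (`Variety`, `IsFano`, `IsKlt`, `KSemistable`, `alpha`, `alphaSet`) are those of
`Pool.Agent.Helper774.KSing.Defs`.
-/

open scoped ENNReal

noncomputable section

namespace Pool.Agent.Results.MP_f277c5_ag.NoGapAnyDimension

open Pool.Agent.Helper774.KSing

/-- For every `n ≥ 2` there is no gap above `1/(n+1)` in the set `𝒜_n` of the alpha invariants of the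
K-semistable klt Fano varieties of dimension `n`: for every `ε > 0` it has an element in the open interval
from `1/(n+1)` to `1/(n+1) + ε`; that is, the infimum of the elements of `𝒜_n` larger than `1/(n+1)` is
`1/(n+1)`. -/
theorem result : ∀ n : ℕ, 2 ≤ n →
    (∀ ε : ℝ, 0 < ε → ∃ a ∈ alphaSet n,
      ENNReal.ofReal (1 / (n + 1)) < a ∧ a < ENNReal.ofReal (1 / (n + 1) + ε)) ∧
    sInf (alphaSet n ∩ Set.Ioi (ENNReal.ofReal (1 / (n + 1)))) = ENNReal.ofReal (1 / (n + 1)) := by
  intro n hn
  have hmain : ∀ ε : ℝ, 0 < ε → ∃ a ∈ alphaSet n,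
      ENNReal.ofReal (1 / (n + 1)) < a ∧ a < ENNReal.ofReal (1 / (n + 1) + ε) := by
    intro ε hε
    obtain ⟨k, rfl⟩ := Nat.exists_eq_add_of_le' hn
    obtain ⟨m, hm⟩ := exists_nat_gt (max 7 (5 * ((k : ℝ) + 2) / ε))
    have hm7 : 7 ≤ m := by
      have h1 : (7 : ℝ) < m := lt_of_le_of_lt (le_max_left _ _) hm
      exact_mod_cast h1.le
    have hm' : (7 : ℝ) ≤ m := by exact_mod_cast hm7
    have hmε : 5 * ((k : ℝ) + 2) < m * ε := by
      have h1 := lt_of_le_of_lt (le_max_right _ _) hm
      rwa [div_lt_iff₀ hε] at h1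
    have hk : (0 : ℝ) ≤ k := by positivity
    obtain ⟨M, hM, h1, h2, h3⟩ := Pool.Agent.Y385.TS.exists_mem (n := k + 1) (by omega) m hm7
    push_cast at h1 h2
    refine ⟨ENNReal.ofReal (1 / (1 + M)), hM, ?_, ?_⟩
    · rw [ENNReal.ofReal_lt_ofReal_iff (by positivity)]
      push_cast
      apply one_div_lt_one_div_of_lt (by linarith)
      linarith
    · rw [ENNReal.ofReal_lt_ofReal_iff (by positivity)]
      push_cast
      -- `1/(1+M) - 1/(n+1) = (n - M) / ((1+M)(n+1)) ≤ n - M ≤ 5 n / (m + 3) < ε`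
      have h4 : ((k : ℝ) + 2 - M) * (m + 3) ≤ 5 * (k + 2) := by nlinarith
      have h5 : (k : ℝ) + 2 - M < ε := by
        by_contra hcon
        push Not at hcon
        have : ε * (m + 3) ≤ ((k : ℝ) + 2 - M) * (m + 3) :=
          mul_le_mul_of_nonneg_right hcon (by linarith)
        nlinarith
      have h6 : 1 / (1 + M) = 1 / ((k : ℝ) + 2 + 1) + ((k : ℝ) + 2 - M) / ((1 + M) * (k + 2 + 1)) := by
        have e1 : (1 : ℝ) + M ≠ 0 := by linarith
        have e2 : (k : ℝ) + 2 + 1 ≠ 0 := by linarith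
        field_simp
        ring
      have h7 : ((k : ℝ) + 2 - M) / ((1 + M) * (k + 2 + 1)) ≤ (k : ℝ) + 2 - M := by
        apply div_le_self (by linarith)
        nlinarith
      rw [h6]
      linarith
  refine ⟨hmain, le_antisymm ?_ ?_⟩
  · refine le_of_forall_gt fun b hb => ?_
    -- an element of the set below `b`
    obtain ⟨r, hr1, hr2⟩ := ENNReal.lt_iff_exists_real_btwn.1 hb
    obtain ⟨h3, h4⟩ := hr2
    have h5 : (0 : ℝ) < r - 1 / ((n : ℝ) + 1) := by
      have h6 : (1 : ℝ) / (n + 1) < r := by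
        by_contra hcon
        push Not at hcon
        exact absurd h3 (not_lt.2 (ENNReal.ofReal_le_ofReal hcon))
      linarith
    obtain ⟨a, ha, h7, h8⟩ := hmain _ h5
    have h9 : (1 : ℝ) / (n + 1) + (r - 1 / ((n : ℝ) + 1)) = r := by ring
    rw [h9] at h8
    exact lt_of_le_of_lt (sInf_le ⟨ha, h7⟩) (h8.trans h4)
  · exact le_sInf fun a ha => (Set.mem_Ioi.1 ha.2).le

end Pool.Agent.Results.MP_f277c5_ag.NoGapAnyDimension
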